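import Mathlib
import Pool.Agent.H.MP_a6f573_an.D

namespace Pool.Agent.Results.MP_dbea21_an.NotDense
open MeasureTheory

variable {S : Type} [TopologicalSpace S] [MeasurableSpace S]

def E (A : Subalgebra ℂ C(S, ℂ)) (μ : FiniteMeasure S) : Set (FiniteMeasure S) :=
  {ν | (ν : Measure S) ≪ μ ∧ ∀ f ∈ A, ∫ s, f s ∂(ν : Measure S) = ∫ s, f s ∂(μ : Measure S)}

noncomputable def logInt (ν : FiniteMeasure S) (f : C(S, ℂ)) : EReal :=
  ((∫⁻ s, (ENNReal.log ‖f s‖ₑ).toENNReal ∂(ν : Measure S) : ENNReal) : EReal) -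
    ((∫⁻ s, (-ENNReal.log ‖f s‖ₑ).toENNReal ∂(ν : Measure S) : ENNReal) : EReal)

def Standing [CompactSpace S] (A : Subalgebra ℂ C(S, ℂ)) : Prop :=
  IsClosed (A : Set C(S, ℂ)) ∧
    (∀ φ : A →ₐ[ℂ] ℂ, Continuous φ → ∃! s : S, ∀ f : A, φ f = (f : C(S, ℂ)) s) ∧
    ∀ f ∈ A, ∀ h ∈ A, f * h = 1 → ∃ g ∈ A, ∀ s, f s = Complex.exp (g s)

def sums (A : Subalgebra ℂ C(S, ℂ)) (p : ENNReal) (μ : Measure S) : Set (Lp ℂ p μ) :=
  {u | ∃ f ∈ A, ∃ g ∈ A, u =ᵐ[μ] fun s => f s + star (g s)}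

@[reducible] noncomputable def weakStar (σ : Measure S) : TopologicalSpace (Lp ℂ ⊤ σ) :=
  ⨅ g : Lp ℂ 1 σ, TopologicalSpace.induced (fun u : Lp ℂ ⊤ σ => ∫ s, u s * g s ∂σ) inferInstance

theorem result : ∃ (S : Type) (_ : TopologicalSpace S) (_ : CompactSpace S) (_ : T2Space S)
    (_ : MeasurableSpace S) (_ : BorelSpace S) (A : Subalgebra ℂ C(S, ℂ)) (μ σ : FiniteMeasure S),
    Standing A ∧ Dense (sums A 1 (μ : Measure S)) ∧
    σ ∈ closure (E A μ) ∧ (∀ ν ∈ closure (E A μ), ∀ f ∈ A, logInt ν f ≤ logInt σ f) ∧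
    ¬ @Dense _ (weakStar (σ : Measure S)) (sums A ⊤ (σ : Measure S)) := by
  open Pool.Agent.H.MP_a6f573_an in
  exact ⟨Pool.Agent.H.MP_a6f573_an.S, inferInstance, inferInstance, inferInstance, inferInstance,
    inferInstance, A, mu H3, mu H3, ⟨A_closed, chars, exps⟩, dense H3 (fun _ => H3_nn _) R3,
    subset_closure ⟨Measure.AbsolutelyContinuous.rfl, fun _ _ => rfl⟩,
    fun ν hν f _ => by rw [only hν], not_dense⟩

end Pool.Agent.Results.MP_dbea21_an.NotDense
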